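import Pool.Agent.D0H11.GM.Stm
import Pool.Agent.D0H87.TW.R4b
import Pool.Agent.D0H21.GF.Sq4
import Pool.Agent.D0H21.GF.Abcd

/-!
# Project GM (helper11), module CNT: the numbers of the quadruples and of the pairs
-/

set_option autoImplicit false

namespace Pool.Agent.D0H30.GM

open Finset Pool.Agent.D0H11.GM

lemma mem_QQ {M : ℕ} {q : Fin 4 → ℕ} :
    q ∈ QQ M ↔ (∀ i, M ≤ q i ∧ q i < 2 * M) ∧ Odd (nn q) := by
  unfold QQ
  rw [mem_filter, Fintype.mem_piFinset]
  simp only [mem_Ico]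

/-- (i) many quadruples -/
theorem card_ge (M : ℕ) (hM : 2 ≤ M) : (M : ℝ) ^ 4 / 4 ≤ ((QQ M).card : ℝ) := by
  have h1 : ((Fintype.piFinset fun _ : Fin 3 => Ico M (2 * M)) ×ˢ range (M / 2)).card ≤ (QQ M).card := by
    apply card_le_card_of_injOn (fun p => ![p.1 0, p.1 1, p.1 2,
      M + 2 * p.2 + (1 - (p.1 0 + p.1 1 + p.1 2 + M) % 2)])
    · intro p hp
      rw [mem_coe, mem_product, Fintype.mem_piFinset, mem_range] at hp
      obtain ⟨h0, h2⟩ := hp
      have a0 := mem_Ico.1 (h0 0)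
      have a1 := mem_Ico.1 (h0 1)
      have a2 := mem_Ico.1 (h0 2)
      rw [mem_coe, mem_QQ]
      constructor
      · intro i
        fin_cases i
        · simpa using a0
        · simpa using a1
        · simpa using a2
        · simp only [Fin.reduceFinMk, Matrix.cons_val]
          constructor <;> omega
      · unfold nn
        simp only [Matrix.cons_val]
        have key : ∀ a b c d : ℕ, (a + b + c + d) % 2 = 1 → Odd (a ^ 2 + b ^ 2 + c ^ 2 + d ^ 2) := by
          intro a b c d h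
          rw [Nat.odd_iff]
          have e : ∀ x : ℕ, x ^ 2 % 2 = x % 2 := by
            intro x
            rcases Nat.mod_two_eq_zero_or_one x with h | h <;> simp [Nat.pow_mod, h]
          have e1 := e a
          have e2 := e b
          have e3 := e c
          have e4 := e d
          omega
        apply key
        omega
    · intro p _ p' _ h
      simp only at h
      have e0 := congrFun h 0
      have e1 := congrFun h 1
      have e2 := congrFun h 2
      have e3 := congrFun h 3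
      simp only [Matrix.cons_val] at e0 e1 e2 e3
      rw [e0, e1, e2] at e3
      refine Prod.ext (funext fun i => ?_) (by omega)
      fin_cases i
      · exact e0
      · exact e1
      · exact e2
  rw [card_product, Fintype.card_piFinset, card_range] at h1
  simp only [Nat.card_Ico, prod_const, card_univ, Fintype.card_fin] at h1
  have h2 : (2 * M - M) = M := by omega
  rw [h2] at h1
  have h3 : M ≤ 4 * (M / 2) := by omega
  have h4 : (M : ℝ) ≤ 4 * ((M / 2 : ℕ) : ℝ) := by exact_mod_cast h3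
  have h5 : (M : ℝ) ^ 3 * ((M / 2 : ℕ) : ℝ) ≤ ((QQ M).card : ℝ) := by exact_mod_cast h1
  have h6 : (M : ℝ) ^ 3 * M ≤ (M : ℝ) ^ 3 * (4 * ((M / 2 : ℕ) : ℝ)) :=
    mul_le_mul_of_nonneg_left h4 (by positivity)
  have h7 : (M : ℝ) ^ 4 = (M : ℝ) ^ 3 * M := by ring
  rw [h7]
  linarith

open Classical in
/-- (ii) the second moment -/
theorem pairs_le (M : ℕ) (hM : 2 ≤ M) :
    ((((QQ M ×ˢ QQ M).filter fun p => nn p.1 = nn p.2).card : ℕ) : ℝ) ≤
      ((81 + 5832 * Pool.Agent.D0H87.TW.KZ) * 4096) * (M : ℝ) ^ 6 := by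
  have h1 : ((QQ M ×ˢ QQ M).filter fun p => nn p.1 = nn p.2).card ≤
      (Pool.Agent.D0H87.TW.Z4 (4 * M)).card := by
    apply card_le_card_of_injOn (fun p => ((fun i => (p.1 i : ℤ) - p.2 i), fun i => (p.1 i : ℤ) + p.2 i))
    · intro p hp
      rw [mem_coe, mem_filter, mem_product] at hp
      obtain ⟨⟨h2, h3⟩, h4⟩ := hp
      have a := (mem_QQ.1 h2).1
      have b := (mem_QQ.1 h3).1
      rw [mem_coe]
      unfold Pool.Agent.D0H87.TW.Z4
      rw [mem_filter, mem_product, Pool.Agent.D0H87.TW.mem_bx, Pool.Agent.D0H87.TW.mem_bx]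
      refine ⟨⟨fun i => ?_, fun i => ?_⟩, ?_⟩
      · have := a i
        have := b i
        simp only
        rw [abs_le]
        push_cast
        constructor <;> omega
      · have := a i
        have := b i
        simp only
        rw [abs_le]
        push_cast
        constructor <;> omega
      · unfold nn at h4
        have h5 : ((p.1 0 : ℤ) ^ 2 + (p.1 1 : ℤ) ^ 2 + (p.1 2 : ℤ) ^ 2 + (p.1 3 : ℤ) ^ 2) =
            (p.2 0 : ℤ) ^ 2 + (p.2 1 : ℤ) ^ 2 + (p.2 2 : ℤ) ^ 2 + (p.2 3 : ℤ) ^ 2 := by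
          exact_mod_cast h4
        simp only [Fin.sum_univ_four]
        linear_combination h5
    · intro p _ p' _ h
      simp only [Prod.mk.injEq] at h
      have e : ∀ i, p.1 i = p'.1 i ∧ p.2 i = p'.2 i := by
        intro i
        have h1 := congrFun h.1 i
        have h2 := congrFun h.2 i
        constructor <;> omega
      exact Prod.ext (funext fun i => (e i).1) (funext fun i => (e i).2)
  have h2 := Pool.Agent.D0H87.TW.Z4_card (4 * M) (by omega)
  have h3 : ((((QQ M ×ˢ QQ M).filter fun p => nn p.1 = nn p.2).card : ℕ) : ℝ) ≤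
      ((Pool.Agent.D0H87.TW.Z4 (4 * M)).card : ℝ) := by exact_mod_cast h1
  refine h3.trans (h2.trans (le_of_eq ?_))
  push_cast
  ring

open Classical in
/-- (iii) the pairs with the same `u - v` and near `u`, `u'` -/
theorem near_le (C : ℝ) (E : ℕ) (hC : 0 < C)
    (h : ∀ (M : ℕ) (e : ℤ), 2 ≤ M →
      ((((Icc (-(M : ℤ)) M ×ˢ Icc (-(M : ℤ)) M) ×ˢ (Icc (-(M : ℤ)) M ×ˢ Icc (-(M : ℤ)) M)).filter
      (fun p : (ℤ × ℤ) × (ℤ × ℤ) => p.1.1 ^ 2 - p.1.2 ^ 2 + (p.2.1 ^ 2 - p.2.2 ^ 2) = e)).card : ℝ) ≤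
      C * (M : ℝ) ^ 2 * Real.log M ^ E) (M κ : ℕ) (hM : 2 ≤ M) (hκ : 1 ≤ κ) :
    ((((QQ M ×ˢ QQ M).filter fun p => nn p.1 = nn p.2 ∧
      uu p.1 + vv p.2 = uu p.2 + vv p.1 ∧ uu p.2 < uu p.1 + κ ∧ uu p.1 < uu p.2 + κ).card : ℕ) : ℝ) ≤
    (128 * 2 ^ E * C) * κ * (M : ℝ) ^ 4 * Real.log M ^ E := by
  set S := (QQ M ×ˢ QQ M).filter fun p => nn p.1 = nn p.2 ∧
      uu p.1 + vv p.2 = uu p.2 + vv p.1 ∧ uu p.2 < uu p.1 + κ ∧ uu p.1 < uu p.2 + κ with hS
  set B : ℝ := C * ((2 * M : ℕ) : ℝ) ^ 2 * Real.log ((2 * M : ℕ) : ℝ) ^ E with hB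
  have hfib : ∀ b ∈ (range (4 * M) ×ˢ range (4 * M)) ×ˢ Ioo (-(κ : ℤ)) κ,
      (S.filter fun p => (((uu p.1, vv p.1), (uu p.2 : ℤ) - uu p.1) : (ℕ × ℕ) × ℤ) = b).card ≤ ⌊B⌋₊ := by
    rintro ⟨⟨u, v⟩, j⟩ _
    apply Nat.le_floor
    refine le_trans ?_ (h (2 * M) (((u : ℤ) + j) ^ 2 - u ^ 2 + (((v : ℤ) + j) ^ 2 - v ^ 2)) (by omega))
    rw [Nat.cast_le]
    apply card_le_card_of_injOn (fun p => ((((p.1 0 : ℤ) - p.1 1), ((p.2 0 : ℤ) - p.2 1)),
      (((p.1 2 : ℤ) - p.1 3), ((p.2 2 : ℤ) - p.2 3))))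
    · intro p hp
      rw [mem_coe, mem_filter, hS, mem_filter, mem_product] at hp
      obtain ⟨⟨⟨h2, h3⟩, h4, h5, h6, h7⟩, h8⟩ := hp
      simp only [Prod.mk.injEq] at h8
      obtain ⟨⟨h9, h10⟩, h11⟩ := h8
      have a := (mem_QQ.1 h2).1
      have b := (mem_QQ.1 h3).1
      have a0 := a 0
      have a1 := a 1
      have a2 := a 2
      have a3 := a 3
      have b0 := b 0
      have b1 := b 1
      have b2 := b 2
      have b3 := b 3
      simp only [uu, vv] at h5 h9 h10 h11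
      unfold nn at h4
      rw [mem_coe, mem_filter, mem_product, mem_product, mem_product]
      simp only [mem_Icc]
      have e1 : ((p.1 0 : ℤ) ^ 2 + (p.1 1 : ℤ) ^ 2 + (p.1 2 : ℤ) ^ 2 + (p.1 3 : ℤ) ^ 2) =
            (p.2 0 : ℤ) ^ 2 + (p.2 1 : ℤ) ^ 2 + (p.2 2 : ℤ) ^ 2 + (p.2 3 : ℤ) ^ 2 := by
          exact_mod_cast h4
      have e2 : (u : ℤ) = p.1 0 + p.1 1 := by
        rw [← h9]; push_cast; ring
      have e3 : (v : ℤ) = p.1 2 + p.1 3 := by
        rw [← h10]; push_cast; ring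
      have e4 : (u : ℤ) + j = p.2 0 + p.2 1 := by
        rw [← h11, e2]; push_cast; ring
      have e5 : (v : ℤ) + j = p.2 2 + p.2 3 := by
        rw [← h11, e3]
        push_cast
        have : ((p.1 0 : ℤ) + p.1 1 + (p.2 2 + p.2 3)) = p.2 0 + p.2 1 + (p.1 2 + p.1 3) := by
          exact_mod_cast h5
        linarith
      refine ⟨⟨⟨⟨?_, ?_⟩, ⟨?_, ?_⟩⟩, ⟨⟨?_, ?_⟩, ⟨?_, ?_⟩⟩⟩, ?_⟩
      all_goals first
        | (push_cast; omega)
        | (rw [e4, e5, e2, e3]; linear_combination 2 * e1)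
    · intro p hp p' hp' h'
      rw [mem_coe, mem_filter, hS, mem_filter, mem_product] at hp hp'
      obtain ⟨⟨⟨_, _⟩, _, h5, _, _⟩, h8⟩ := hp
      obtain ⟨⟨⟨_, _⟩, _, g5, _, _⟩, g8⟩ := hp'
      simp only [Prod.mk.injEq] at h8 g8 h'
      obtain ⟨⟨h9, h10⟩, h11⟩ := h8
      obtain ⟨⟨g9, g10⟩, g11⟩ := g8
      obtain ⟨⟨k1, k2⟩, k3, k4⟩ := h'
      simp only [uu, vv] at h5 h9 h10 h11 g5 g9 g10 g11
      push_cast at h11 g11
      have c1 : ∀ i, p.1 i = p'.1 i := by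
        intro i
        fin_cases i
        · show p.1 0 = p'.1 0; omega
        · show p.1 1 = p'.1 1; omega
        · show p.1 2 = p'.1 2; omega
        · show p.1 3 = p'.1 3; omega
      have c2 : ∀ i, p.2 i = p'.2 i := by
        intro i
        fin_cases i
        · show p.2 0 = p'.2 0; omega
        · show p.2 1 = p'.2 1; omega
        · show p.2 2 = p'.2 2; omega
        · show p.2 3 = p'.2 3; omega
      exact Prod.ext (funext c1) (funext c2)
  have hmaps : ∀ p ∈ S, (((uu p.1, vv p.1), (uu p.2 : ℤ) - uu p.1) : (ℕ × ℕ) × ℤ) ∈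
      (range (4 * M) ×ˢ range (4 * M)) ×ˢ Ioo (-(κ : ℤ)) κ := by
    intro p hp
    rw [hS, mem_filter, mem_product] at hp
    obtain ⟨⟨h2, h3⟩, h4, h5, h6, h7⟩ := hp
    have a := (mem_QQ.1 h2).1
    have a0 := a 0
    have a1 := a 1
    have a2 := a 2
    have a3 := a 3
    rw [mem_product, mem_product, mem_range, mem_range, mem_Ioo]
    have e1 : uu p.1 < 4 * M := by unfold uu; omega
    have e2 : vv p.1 < 4 * M := by unfold vv; omega
    refine ⟨⟨e1, e2⟩, ?_, ?_⟩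
    · simp only; omega
    · simp only; omega
  have h1 := card_le_mul_card_image_of_maps_to hmaps ⌊B⌋₊ hfib
  rw [card_product, card_product, card_range, Int.card_Ioo] at h1
  have h2 : ((κ : ℤ) - -(κ : ℤ) - 1).toNat ≤ 2 * κ := by omega
  have hlog0 : 0 ≤ Real.log ((2 * M : ℕ) : ℝ) := Real.log_natCast_nonneg _
  have hB0 : 0 ≤ B := by rw [hB]; positivity
  have h3 : (S.card : ℝ) ≤ B * ((4 * M) * (4 * M) * (2 * κ)) := by
    have h4 : S.card ≤ ⌊B⌋₊ * (4 * M * (4 * M) * (2 * κ)) :=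
      h1.trans (Nat.mul_le_mul_left _ (Nat.mul_le_mul_left _ h2))
    have h5 : (S.card : ℝ) ≤ (⌊B⌋₊ : ℝ) * ((4 * M) * (4 * M) * (2 * κ)) := by exact_mod_cast h4
    exact h5.trans (mul_le_mul_of_nonneg_right (Nat.floor_le hB0) (by positivity))
  have hM1 : (1 : ℝ) < M := by exact_mod_cast (by omega : 1 < M)
  have hlog : Real.log ((2 * M : ℕ) : ℝ) ≤ 2 * Real.log M := by
    push_cast
    rw [Real.log_mul (by norm_num) (by positivity)]
    have : Real.log 2 ≤ Real.log M := Real.log_le_log (by norm_num) (by exact_mod_cast hM)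
    linarith
  have hpow : Real.log ((2 * M : ℕ) : ℝ) ^ E ≤ 2 ^ E * Real.log M ^ E := by
    rw [← mul_pow]
    exact pow_le_pow_left₀ hlog0 hlog E
  calc (S.card : ℝ) ≤ B * ((4 * M) * (4 * M) * (2 * κ)) := h3
    _ = (C * ((2 * M : ℕ) : ℝ) ^ 2 * ((4 * M) * (4 * M) * (2 * κ))) * Real.log ((2 * M : ℕ) : ℝ) ^ E := by
        rw [hB]; ring
    _ ≤ (C * ((2 * M : ℕ) : ℝ) ^ 2 * ((4 * M) * (4 * M) * (2 * κ))) * (2 ^ E * Real.log M ^ E) :=
        mul_le_mul_of_nonneg_left hpow (by positivity)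
    _ = (128 * 2 ^ E * C) * κ * (M : ℝ) ^ 4 * Real.log M ^ E := by
        push_cast
        ring

/-- the numbers of the quadruples and of the pairs -/
theorem t_CNT : S_CNT := by
  obtain ⟨C, E, hC, h⟩ := Pool.Agent.D0H21.GF.t_SQ4 Pool.Agent.D0H21.GF.t_ABCD
  have hKZ := Pool.Agent.D0H87.TW.KZ_nonneg
  refine ⟨(81 + 5832 * Pool.Agent.D0H87.TW.KZ) * 4096 + 128 * 2 ^ E * C, E, by positivity, card_ge, ?_, ?_⟩
  · intro M hM
    refine (pairs_le M hM).trans ?_
    apply mul_le_mul_of_nonneg_right _ (by positivity)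
    have : 0 ≤ 128 * 2 ^ E * C := by positivity
    linarith
  · intro M κ hM hκ
    have hlog : 0 ≤ Real.log (M : ℝ) := Real.log_natCast_nonneg _
    refine (near_le C E hC h M κ hM hκ).trans ?_
    apply mul_le_mul_of_nonneg_right _ (by positivity)
    apply mul_le_mul_of_nonneg_right _ (by positivity)
    apply mul_le_mul_of_nonneg_right _ (by positivity)
    have : 0 ≤ (81 + 5832 * Pool.Agent.D0H87.TW.KZ) * 4096 := by positivity
    linarith

end Pool.Agent.D0H30.GM
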